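import Pool.Agent.Shared.PolyTime.Big

/-!
The converse of `PF.tm2`: a function computed by a polynomial-time TM2 machine of Mathlib is `PF`.
Hence hypothetical polynomial-time algorithms can be used as subroutines.
-/

set_option autoImplicit false

namespace Pool.Agent.Shared.PolyTime

open Function Polynomial Enc Pool.Agent.Shared.NP Turing Turing.TM2

theorem exists_table {X β : Type} [Fintype X] (f : X → β) (d : β) :
    ∃ t : List β, ∀ x, t.getD (Fintype.equivFin X x).val d = f x := by
  refine ⟨List.ofFn fun i => f ((Fintype.equivFin X).symm i), fun x => ?_⟩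
  rw [List.getD_eq_getElem _ _ (by simp)]
  simp

theorem getD_range_map {β : Type} (n : ℕ) (f : ℕ → β) (d : β) {j : ℕ} (h : j < n) :
    ((List.range n).map f).getD j d = f j := by
  rw [List.getD_eq_getElem _ _ (by simpa using h)]
  simp

theorem am_run_pf {Z K A : Type} [DecidableEq K] [Fintype Z] [Fintype K] [Fintype A]
    (M : AM Z K A) (z₀ : Z) (k₀ k₁ : K) (ι : Bool → A) (out : A → Bool) :
    PF fun p : List Bool × ℕ => ((M.step^[p.2] (initC z₀ k₀ ι p.1)).2 k₁).map out := by
  classical
  let cz : Z → ℕ := fun z => (Fintype.equivFin Z z).val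
  let ck : K → ℕ := fun z => (Fintype.equivFin K z).val
  let ca : A → ℕ := fun z => (Fintype.equivFin A z).val
  let nK := Fintype.card K
  let dk : ℕ → K := fun j => if h : j < nK then (Fintype.equivFin K).symm ⟨j, h⟩ else k₀
  have hdk : ∀ k, dk (ck k) = k := fun k => by
    have : ck k < nK := (Fintype.equivFin K k).2
    simp [dk, this, ck]
  have hck : ∀ j < nK, ck (dk j) = j := fun j hj => by simp [dk, hj, ck]
  have hlt : ∀ k, ck k < nK := fun k => (Fintype.equivFin K k).2
  obtain ⟨tk, htk⟩ := exists_table (fun z => ck (M.kk z)) 0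
  obtain ⟨t0, ht0⟩ := exists_table (fun z => cz (M.δ z none)) 0
  have h1 := fun z => exists_table (fun a => cz (M.δ z (some a))) 0
  choose t1' ht1' using h1
  obtain ⟨t1, ht1⟩ := exists_table t1' []
  obtain ⟨tp, hto⟩ := exists_table (fun z => match M.op z with
    | none => 0
    | some none => 1
    | some (some b) => ca b + 2) 0
  obtain ⟨tout, htout⟩ := exists_table out false
  let code : Z × (K → List A) → ℕ × List (List ℕ) := fun c =>
    (cz c.1, (List.range nK).map fun j => (c.2 (dk j)).map ca)
  let st : ℕ × List (List ℕ) → ℕ × List (List ℕ) := fun c =>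
    (cond (c.2.getD (tk.getD c.1 0) []).isEmpty (t0.getD c.1 0)
      ((t1.getD c.1 []).getD ((c.2.getD (tk.getD c.1 0) []).headD 0) 0),
    (List.range nK).map fun j => cond (j == tk.getD c.1 0)
      (cond (tp.getD c.1 0 == 0) (c.2.getD j []) (cond (tp.getD c.1 0 == 1) (c.2.getD j []).tail
        ((tp.getD c.1 0 - 2) :: c.2.getD j []))) (c.2.getD j []))
  have hst : ∀ c, st (code c) = code (M.step c) := by
    rintro ⟨z, S⟩
    have e1 : tk.getD (cz z) 0 = ck (M.kk z) := htk z
    have e2 : t0.getD (cz z) 0 = cz (M.δ z none) := ht0 z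
    have e3 : t1.getD (cz z) [] = t1' z := ht1 z
    have e4 := hto z
    simp only [st, code, AM.step, e1, e2, e3, getD_range_map _ _ _ (hlt _), hdk]
    refine Prod.ext ?_ ?_
    · rcases S (M.kk z) with _ | ⟨a, l⟩
      · rfl
      · exact ht1' z a
    · refine List.map_congr_left fun j hj => ?_
      have hj' := List.mem_range.1 hj
      rw [getD_range_map _ _ _ hj']
      change _ = ((M.upd z S) (dk j)).map ca
      by_cases hjk : j = ck (M.kk z)
      · subst hjk
        change tp.getD (cz z) 0 = _ at e4
        rw [e4, hdk]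
        unfold AM.upd
        rcases M.op z with _ | _ | b <;> simp
      · have hne : dk j ≠ M.kk z := fun h => hjk (by rw [← h, hck j hj'])
        have : (j == ck (M.kk z)) = false := by simpa using hjk
        rw [this]
        unfold AM.upd
        rcases M.op z with _ | _ | b <;> simp [update_of_ne hne]
  have hit : ∀ n c, st^[n] (code c) = code (M.step^[n] c) := by
    intro n c
    induction n with
    | zero => rfl
    | succ n ih => rw [iterate_succ_apply', iterate_succ_apply', ih, hst]
  have hlen : ∀ n (c : Z × (K → List A)) B, (∀ k, (c.2 k).length ≤ B) →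
      ∀ k, ((M.step^[n] c).2 k).length ≤ B + n := by
    intro n c B hB
    induction n with
    | zero => exact hB
    | succ n ih =>
      intro k
      rw [iterate_succ_apply']
      change (M.upd _ _ k).length ≤ _
      unfold AM.upd
      by_cases hk : k = M.kk (M.step^[n] c).1
      · have := ih k
        rcases M.op (M.step^[n] c).1 with _ | _ | b
        · simp only; omega
        · simp only [← hk, update_self, List.length_tail]; omega
        · simp only [← hk, update_self, List.length_cons]; omega
      · have := ih k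
        rcases M.op (M.step^[n] c).1 with _ | _ | b <;> simp only [update_of_ne hk] <;> omega
  have hinit : PF fun p : List Bool × ℕ => code (initC z₀ k₀ ι p.1) := by
    have : PF fun p : List Bool × ℕ => (cz z₀, (List.range nK).map fun j =>
        cond (j == ck k₀) (p.1.map fun b => cond b (ca (ι true)) (ca (ι false))) []) := by
      fun_prop
    refine this.of_eq fun p => Prod.ext rfl (List.map_congr_left fun j hj => ?_)
    have hj' := List.mem_range.1 hj
    by_cases hjk : j = ck k₀
    · subst hjk
      simp only [initC, hdk, beq_self_eq_true, cond_true, if_true, List.map_map]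
      exact List.map_congr_left fun b _ => by cases b <;> rfl
    · have hne : dk j ≠ k₀ := fun h => hjk (by rw [← h, hck j hj'])
      have : (j == ck k₀) = false := by simpa using hjk
      simp [initC, hne, this]
  have hrun := PF.iterate (k := fun p : List Bool × ℕ => p.2) (st := fun _ => st) (by fun_prop)
    hinit (by simp only [st]; fun_prop)
    ⟨C (2 * Fintype.card Z + 1) + C nK * (2 * (2 * X * C (2 * Fintype.card A + 1)) + 1),
      fun p j hj => by
        rw [hit]
        have hN1 : p.1.length ≤ (enc p).length := by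
          have := length_le_len p.1
          rw [show p = (p.1, p.2) from rfl, len_prod]; simp only; omega
        have hN2 : p.2 ≤ (enc p).length := by
          rw [show p = (p.1, p.2) from rfl, len_prod, len_nat]; simp only; omega
        have h2 := hlen j (initC z₀ k₀ ι p.1) p.1.length fun k => by
          simp only [initC]; split_ifs <;> simp
        simp only [code, len_prod, len_nat, eval_add, eval_mul, eval_C, eval_X, eval_one,
          eval_ofNat]
        have h3 : cz (M.step^[j] (initC z₀ k₀ ι p.1)).1 < Fintype.card Z :=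
          (Fintype.equivFin Z _).2
        have h4 := len_le_mul ((List.range nK).map fun i =>
          ((M.step^[j] (initC z₀ k₀ ι p.1)).2 (dk i)).map ca)
          (2 * (enc p).length * (2 * Fintype.card A + 1)) fun l hl => by
            obtain ⟨i, -, rfl⟩ := List.mem_map.1 hl
            refine (len_le_mul _ (Fintype.card A) fun a ha => ?_).trans ?_
            · obtain ⟨b, -, rfl⟩ := List.mem_map.1 ha
              rw [len_nat]; exact (Fintype.equivFin A b).2.le
            · rw [List.length_map]
              exact Nat.mul_le_mul_right _ ((h2 _).trans (by omega))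
        rw [List.length_map, List.length_range] at h4
        omega⟩
  have hfin : PF fun p : List Bool × ℕ =>
      ((st^[p.2] (code (initC z₀ k₀ ι p.1))).2.getD (ck k₁) []).map fun a => tout.getD a false := by
    fun_prop
  refine hfin.of_eq fun p => ?_
  rw [hit]
  simp only [code, getD_range_map _ _ _ (hlt _), hdk, List.map_map]
  exact List.map_congr_left fun a _ => htout a

/-- Polynomial-time TM2 machines are simulated at polynomial cost. -/
theorem raw_of_tm2 {A B : Type} (ea : A → List Bool) (eb : B → List Bool) (f : A → B)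
    (h : Nonempty (TM2ComputableInPolyTime ea eb f)) :
    ∃ F : Raw → Raw, PF F ∧ ∀ a, F ⟨ea a⟩ = ⟨eb (f a)⟩ := by
  classical
  obtain ⟨hV⟩ := h
  let _ := hV.tm.kFin
  let _ := hV.tm.ΛFin
  let _ := hV.tm.σFin
  let m := hV.tm.m
  let inp : Bool → hV.tm.Γ hV.tm.k₀ := hV.inputAlphabet.symm
  let D : ℕ := Finset.univ.sup fun l => depth (m l)
  have hD : ∀ l, depth (m l) ≤ D := fun l =>
    Finset.le_sup (f := fun l => depth (m l)) (Finset.mem_univ l)
  have hr := am_run_pf (simM m hV.tm.k₀ inp)
    (mkSt m (some (m hV.tm.main)), hV.tm.initialState) hV.tm.k₀ hV.tm.k₁ Sum.inl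
    (fun o => decide (val m hV.tm.k₀ inp o = some ⟨hV.tm.k₁, hV.outputAlphabet.symm true⟩))
  have h1 : PF (fun w : Raw => hV.time.eval w.bits.length) := PF_poly (by fun_prop) _
  refine ⟨_, PF.toRaw (hr.comp (g := fun w : Raw => (w.bits, D * hV.time.eval w.bits.length))
    (PF.pair (by fun_prop) (PF.mul (PF.const _) h1))), fun a => ?_⟩
  obtain ⟨⟨s, hs1⟩, hs2⟩ := hV.outputsFun a
  have h0 : Sim m hV.tm.k₀ inp (initList hV.tm ((ea a).map hV.inputAlphabet.invFun))
      (initC (mkSt m (some (m hV.tm.main)), hV.tm.initialState) hV.tm.k₀ Sum.inl (ea a)) := by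
    refine ⟨mkSt_val m (m_mem_stmts m _), rfl, fun k => ?_⟩
    by_cases hk : k = hV.tm.k₀
    · subst hk
      simp [initC, initList, val, inp]
    · simp [initC, initList, hk]
  obtain ⟨n, hn, h1⟩ := sim_run m hV.tm.k₀ inp D hD _ _ h0 s _ hs1
  have hT : n ≤ D * hV.time.eval (ea a).length := hn.trans (Nat.mul_le_mul_left D hs2)
  obtain ⟨r, hr⟩ := Nat.exists_eq_add_of_le' hT
  simp only
  rw [hr, iterate_add_apply, sim_idle m hV.tm.k₀ inp h1 rfl]
  have h2 := h1.2.2 hV.tm.k₁
  simp only [haltList, dite_true] at h2
  change _ = ((eb (f a)).map hV.outputAlphabet.invFun).map _ at h2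
  rw [List.map_map] at h2
  have h3 := congrArg (List.map fun o : Option (Σ k, hV.tm.Γ k) =>
    decide (o = some ⟨hV.tm.k₁, hV.outputAlphabet.symm true⟩)) h2
  rw [List.map_map, List.map_map] at h3
  refine congrArg Raw.mk (h3.trans ?_)
  conv_rhs => rw [← List.map_id (eb (f a))]
  refine List.map_congr_left fun b _ => ?_
  cases b
  · simp only [comp_apply, id, decide_eq_false_iff_not, Option.some.injEq]
    intro h5
    exact absurd (hV.outputAlphabet.symm.injective (sigma_mk_injective h5)) (by simp)
  · simp

/-- The converse of `PF.tm2`. -/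
theorem PF.of_tm2 {A B : Type} [Enc A] [Enc B] {f : A → B}
    (h : Nonempty (TM2ComputableInPolyTime (enc : A → List Bool) (enc : B → List Bool) f)) :
    PF f := by
  obtain ⟨F, ⟨G, hG, sG⟩, hF⟩ := raw_of_tm2 _ _ f h
  refine ⟨G, hG, fun a => ?_⟩
  have := sG ⟨enc a⟩
  rw [hF] at this
  exact this

/-- Change of the typed representation. -/
theorem PF.transfer {A B X Y : Type} [Enc A] [Enc B] [Enc X] [Enc Y] {φ : X → Y} (hφ : PF φ)
    (f : A → B) (d : A → X) (h1 : ∀ a, enc a = enc (d a)) (h2 : ∀ a, enc (f a) = enc (φ (d a))) :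
    PF f := by
  obtain ⟨G, hG, sG⟩ := hφ
  exact ⟨G, hG, fun a => by rw [h1, h2, sG]⟩

end Pool.Agent.Shared.PolyTime
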